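import Pool.Agent.helper97.TQ6.Defs

set_option autoImplicit false

/-!
# Part (E1): the final sets of switched vertices
-/

namespace Pool.Agent.helper97.TQ6

section C
variable {p : ℕ → ℕ}

private theorem sp_succ' (j : ℕ) : sp p (j + 1) = p (sp p j) := by
  unfold sp
  rw [Function.iterate_succ_apply']

open Classical in
private theorem sg_succ' (j : ℕ) : sg p (j + 1) =
    if LS p (j + 1) (sp p (j + 1) + 1) then min (p (sg p j)) (sp p (j + 1) - 1)
      else p (sg p j) := by
  conv_lhs => rw [sg]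

variable (hp : Monotone p) (hw : ∀ x, x + 3 ≤ p x)
include hp

private theorem sg_le' (j : ℕ) : sg p j ≤ sp p j := by
  induction j with
  | zero => exact le_rfl
  | succ j ih =>
    have h1 : p (sg p j) ≤ sp p (j + 1) := by rw [sp_succ']; exact hp ih
    rw [sg_succ']
    split_ifs
    · exact (min_le_left _ _).trans h1
    · exact h1

private theorem sg_p' (j : ℕ) :
    sg p (j + 1) ≤ p (sg p j) ∧ p (sg p j) ≤ sg p (j + 1) + 1 := by
  have h1 : p (sg p j) ≤ sp p (j + 1) := by rw [sp_succ']; exact hp (sg_le' hp j)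
  rw [sg_succ']
  split_ifs
  · omega
  · omega

include hw in
private theorem sg_step' (j : ℕ) : sg p j + 2 ≤ sg p (j + 1) := by
  have h1 := (sg_p' hp j).2
  have h2 := hw (sg p j)
  omega

include hw in
private theorem ls_start' {j v : ℕ} (h : LS p (j + 1) v) (h1 : sp p (j + 1) < v) :
    sg p (j + 1) + 2 ≤ v := by
  have h2 := sg_le' hp (j + 1)
  rcases Nat.lt_or_ge (sp p (j + 1) + 1) v with h3 | h3
  · omega
  · have h4 : v = sp p (j + 1) + 1 := by omega
    rw [h4] at h
    have h5 : sg p (j + 1) ≤ sp p (j + 1) - 1 := by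
      rw [sg_succ', if_pos h]
      exact min_le_right _ _
    have h6 := hw (sp p j)
    rw [← sp_succ' (p := p) j] at h6
    omega
end C

private theorem fromS' {P : ℕ → ℕ} {a m e : ℕ} {S : Set ℕ} {fl fu : ℕ → Fin 4} (L : Lvl P a m e S fl fu)
    {u : ℕ} (h1 : P a ≤ u) (h2 : u < e) (h3 : fu u ≠ 3) : ∃ s ∈ S, s ≤ u := by
  induction u with
  | zero =>
    have h : P a = 0 := by omega
    have := L.begu
    rw [h] at this
    exact absurd this h3
  | succ u ih =>
    rcases Nat.lt_or_ge u (P a) with h | h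
    · have h4 : P a = u + 1 := by omega
      have := L.begu
      rw [h4] at this
      exact absurd this h3
    · by_cases h5 : u + 1 ∈ S
      · exact ⟨u + 1, h5, le_rfl⟩
      · by_cases h6 : u ∈ S
        · exact ⟨u, h6, by omega⟩
        · have h7 := L.gap u h (by omega) h6 h5
          obtain ⟨s, hs, hsu⟩ := ih h (by omega) (fun h8 => h3 (h7.1 h8))
          exact ⟨s, hs, by omega⟩

section
variable {p : ℕ → ℕ} (hp : Monotone p) (hw : ∀ x, x + 3 ≤ p x)
variable {J : ℕ} {S : ℕ → Set ℕ} {fl fu : ℕ → ℕ → Fin 4}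
include hp hw

omit hp hw in
private theorem PP_lt {j v : ℕ} (h : v < sg p (j + 1)) : PP p j v = p v := if_pos h

omit hw in
/-- the easy bounds -/
private theorem xx_bd (T : Tow p J S fl fu) {j : ℕ} (hj : j ≤ J) {v : ℕ} (hv : v ∈ XX p S fu j) :
    sg p j ≤ v ∧ v < sg p (j + 1) := by
  cases j with
  | zero =>
    have hv' : v ∈ S 0 := hv
    have := (T.adm 0 hj).hi v hv'
    refine ⟨?_, by omega⟩
    show 0 ≤ v
    omega
  | succ j =>
    obtain ⟨h1, h2, -⟩ := hv
    exact ⟨(sg_p' hp j).1.trans h1, h2⟩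

omit hp hw in
/-- a hit and the upper vertices of its fan have different switches -/
private theorem cross_hit (T : Tow p J S fl fu) {j : ℕ} (hj : j < J) {v u : ℕ} (hv : v ∈ S j)
    (h1 : p v ≤ u) (h2 : u ≤ p (v + 1)) : fu j u ≠ 3 := by
  have hhi := (T.adm j hj.le).hi v hv
  have hv' := hv
  rw [T.eq j hj] at hv'
  obtain ⟨g1, g2, g3⟩ := hv'
  have h := (T.lvl j hj).cross v u g1 (by omega) (by rw [PP_lt g2]; exact h1)
    (by rw [PP_lt hhi]; exact h2)
  rw [g3] at h
  exact fun h4 => h h4.symm

private theorem xx_both (T : Tow p J S fl fu) : ∀ j ≤ J,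
    (∀ x ∈ XX p S fu j, ∃ s ∈ S j, s ≤ x) ∧
    (∀ x, sg p j ≤ x → x + 1 < sg p (j + 1) → x ∉ S j → x + 1 ∉ S j →
      (x ∈ XX p S fu j ↔ x + 1 ∈ XX p S fu j)) := by
  intro j
  induction j with
  | zero =>
    intro _
    refine ⟨fun x hx => ⟨x, hx, le_rfl⟩, fun x _ _ h3 h4 => ?_⟩
    exact ⟨fun h => absurd h h3, fun h => absurd h h4⟩
  | succ j ih =>
    intro hj
    have hj' : j < J := by omega
    obtain ⟨ih1, ih2⟩ := ih (by omega)
    have L := T.lvl j hj'
    have hst := sg_step' hp hw j
    have hPa : PP p j (sg p j) = p (sg p j) := PP_lt (by omega)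
    have hex : ∀ x ∈ XX p S fu (j + 1), ∃ s ∈ S (j + 1), s ≤ x := by
      intro x hx
      obtain ⟨h1, h2, h3⟩ := hx
      by_cases h4 : fu j x = 3
      · obtain ⟨v, hv, hv1, hv2⟩ := h3.resolve_left (fun h => h h4)
        have hvS : v ∉ S j := fun h => cross_hit T hj' h hv1 hv2 h4
        obtain ⟨s0, hs0, hs0v⟩ := ih1 v hv
        have hs0v' : s0 < v := by
          rcases Nat.lt_or_ge s0 v with h | h
          · exact h
          · have : s0 = v := by omega
            rw [this] at hs0
            exact absurd hs0 hvS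
        have hu0 : p (s0 + 1) ≤ p v := hp (by omega)
        have hne := cross_hit T hj' hs0 (hp (by omega : s0 ≤ s0 + 1)) le_rfl
        have hs0sg : sg p j ≤ s0 := by
          have := hs0
          rw [T.eq j hj'] at this
          exact this.1
        obtain ⟨s, hs, hsu⟩ := fromS' L (u := p (s0 + 1)) (by rw [hPa]; exact hp (by omega))
          (by omega) hne
        exact ⟨s, hs, by omega⟩
      · exact fromS' L (by rw [hPa]; exact h1) h2 h4
    refine ⟨hex, ?_⟩
    intro x h1 h2 h3 h4
    constructor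
    · rintro ⟨g1, g2, g3⟩
      refine ⟨by omega, h2, ?_⟩
      by_cases h5 : fu j x = 3
      · right
        obtain ⟨v, hv, hv1, hv2⟩ := g3.resolve_left (fun h => h h5)
        -- move `v` to the right
        have key : ∀ n v, v ∈ XX p S fu j → p v ≤ x → x ≤ p (v + 1) → sg p (j + 1) - v ≤ n →
            ∃ v' ∈ XX p S fu j, p v' ≤ x + 1 ∧ x + 1 ≤ p (v' + 1) := by
          intro n
          induction n with
          | zero =>
            intro v hv _ _ hn
            have := (xx_bd hp T hj'.le hv).2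
            omega
          | succ n ihn =>
            intro v hv hv1 hv2 hn
            obtain ⟨b1, b2⟩ := xx_bd hp T hj'.le hv
            rcases Nat.lt_or_ge x (p (v + 1)) with h | h
            · exact ⟨v, hv, by omega, h⟩
            · have hvS : v ∉ S j := fun h' => cross_hit T hj' h' hv1 hv2 h5
              rcases Nat.lt_or_ge (v + 1) (sg p (j + 1)) with h6 | h6
              · have hvS' : v + 1 ∉ S j := fun h' =>
                  cross_hit T hj' h' h (hv2.trans (hp (by omega))) h5
                have hv' := (ih2 v b1 h6 hvS hvS').1 hv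
                exact ihn (v + 1) hv' h (hv2.trans (hp (by omega))) (by omega)
              · have h7 : v + 1 = sg p (j + 1) := by omega
                have h8 := (sg_p' hp (j + 1)).1
                rw [h7] at h
                omega
        exact key _ v hv hv1 hv2 le_rfl
      · left
        exact fun h6 => h5 ((L.gap x (by rw [hPa]; exact g1) h2 h3 h4).2 h6)
    · intro hx
      obtain ⟨s, hs, hsx⟩ := hex _ hx
      obtain ⟨g1, g2, g3⟩ := hx
      have hsx' : s ≤ x := by
        rcases Nat.lt_or_ge s (x + 1) with h | h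
        · omega
        · have : s = x + 1 := by omega
          rw [this] at hs
          exact absurd hs h4
      have hsp : sp p (j + 1) < s := (T.adm (j + 1) hj).lo s hs
      have hsp2 : p (sg p j) ≤ sp p (j + 1) := by
        have h := hp (sg_le' hp j)
        unfold sp at h ⊢
        rwa [Function.iterate_succ_apply']
      have hpx : p (sg p j) < x := by omega
      refine ⟨hpx.le, by omega, ?_⟩
      by_cases h5 : fu j (x + 1) = 3
      · right
        obtain ⟨v, hv, hv1, hv2⟩ := g3.resolve_left (fun h => h h5)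
        have key : ∀ n v, v ∈ XX p S fu j → p v ≤ x + 1 → x + 1 ≤ p (v + 1) → v ≤ n →
            ∃ v' ∈ XX p S fu j, p v' ≤ x ∧ x ≤ p (v' + 1) := by
          intro n
          induction n with
          | zero =>
            intro v hv hv1 hv2 hn
            obtain ⟨b1, b2⟩ := xx_bd hp T hj'.le hv
            have h6 : v = sg p j := by omega
            rw [h6] at hv2 hv
            exact ⟨sg p j, hv, hpx.le, by omega⟩
          | succ n ihn =>
            intro v hv hv1 hv2 hn
            obtain ⟨b1, b2⟩ := xx_bd hp T hj'.le hv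
            rcases Nat.lt_or_ge x (p v) with h | h
            · have hvne : v ≠ sg p j := by
                rintro rfl
                omega
              have hvS : v ∉ S j := fun h' => cross_hit T hj' h' hv1 hv2 h5
              obtain ⟨w, rfl⟩ : ∃ w, v = w + 1 := ⟨v - 1, by omega⟩
              have hw1 : p w ≤ x + 1 := (hp (by omega : w ≤ w + 1)).trans hv1
              have hwS : w ∉ S j := fun h' => cross_hit T hj' h' hw1 h h5
              have hw' := (ih2 w (by omega) b2 hwS hvS).2 hv
              exact ihn w hw' hw1 h (by omega)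
            · exact ⟨v, hv, h, by omega⟩
        exact key _ v hv hv1 hv2 le_rfl
      · left
        exact fun h6 => h5 ((L.gap x (by rw [hPa]; exact hpx.le) h2 h3 h4).1 h6)

theorem xx_ex (T : Tow p J S fl fu) {j : ℕ} (hj : j ≤ J) {x : ℕ} (hx : x ∈ XX p S fu j) :
    ∃ s ∈ S j, s ≤ x := (xx_both hp hw T j hj).1 x hx

theorem xx_gap (T : Tow p J S fl fu) {j : ℕ} (hj : j ≤ J) {x : ℕ} (h1 : sg p j ≤ x)
    (h2 : x + 1 < sg p (j + 1)) (h3 : x ∉ S j) (h4 : x + 1 ∉ S j) :
    x ∈ XX p S fu j ↔ x + 1 ∈ XX p S fu j := (xx_both hp hw T j hj).2 x h1 h2 h3 h4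

theorem xx_lo (T : Tow p J S fl fu) {j : ℕ} (hj : j ≤ J) {v : ℕ} (hv : v ∈ XX p S fu j) :
    sg p j ≤ v ∧ v < sg p (j + 1) ∧ (1 ≤ j → sg p j + 2 ≤ v) := by
  obtain ⟨h1, h2⟩ := xx_bd hp T hj hv
  refine ⟨h1, h2, fun h => ?_⟩
  obtain ⟨s, hs, hsv⟩ := xx_ex hp hw T hj hv
  obtain ⟨j, rfl⟩ : ∃ i, j = i + 1 := ⟨j - 1, by omega⟩
  have := ls_start' hp hw ((T.adm _ hj).ls s hs) ((T.adm _ hj).lo s hs)
  omega

theorem xx_c2 (T : Tow p J S fl fu) {j : ℕ} (hj : j < J) {v u : ℕ} (hv : v ∈ XX p S fu j)
    (h1 : p v ≤ u) (h2 : u ≤ p (v + 1)) :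
    u ∈ XX p S fu (j + 1) ∨ u = sg p (j + 2) ∨ u = sg p (j + 2) + 1 := by
  obtain ⟨b1, b2, -⟩ := xx_lo hp hw T hj.le hv
  rcases Nat.lt_or_ge u (sg p (j + 2)) with h | h
  · left
    exact ⟨(hp b1).trans h1, h, Or.inr ⟨v, hv, h1, h2⟩⟩
  · right
    have h3 : p (v + 1) ≤ p (sg p (j + 1)) := hp (by omega)
    have h4 : p (sg p (j + 1)) ≤ sg p (j + 2) + 1 := (sg_p' hp (j + 1)).2
    omega

end

end Pool.Agent.helper97.TQ6
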